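import Pool.Agent.H35.RankRing.Model

/-! The unit group of a model is contractible -/

namespace Pool.Agent.H35

open Filter Topology Matrix

/-- the unit `u e + (1 - e)` -/
def bend {R : Type*} [Ring R] (u : Rˣ) (e : R) (he : e * e = e) (hu : e * u = u * e) : Rˣ where
  val := u * e + (1 - e)
  inv := (u⁻¹ : Rˣ).val * e + (1 - e)
  val_inv := by
    have h1 : e * (u⁻¹ : Rˣ).val = (u⁻¹ : Rˣ).val * e := (Commute.units_inv_right (a := e) hu)
    have h2 : (u : R) * e * ((u⁻¹ : Rˣ).val * e) = e := by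
      rw [← h1, mul_assoc, ← mul_assoc e e, he, h1, ← mul_assoc, Units.mul_inv, one_mul]
    have h3 : (u : R) * e * (1 - e) = 0 := by
      rw [mul_sub, mul_one, mul_assoc, he, sub_self]
    have h4 : (1 - e) * ((u⁻¹ : Rˣ).val * e) = 0 := by
      rw [← h1, ← mul_assoc, sub_mul, one_mul, he, sub_self, zero_mul]
    have h5 : (1 - e) * (1 - e) = 1 - e := by
      rw [mul_sub, mul_one, sub_mul, one_mul, he, sub_self, sub_zero]
    rw [add_mul, mul_add, mul_add, h2, h3, h4, h5]
    abel
  inv_val := by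
    have h1 : e * (u⁻¹ : Rˣ).val = (u⁻¹ : Rˣ).val * e := (Commute.units_inv_right (a := e) hu)
    have h2 : (u⁻¹ : Rˣ).val * e * ((u : R) * e) = e := by
      rw [← hu, mul_assoc, ← mul_assoc e e, he, hu, ← mul_assoc, Units.inv_mul, one_mul]
    have h3 : (u⁻¹ : Rˣ).val * e * (1 - e) = 0 := by
      rw [mul_sub, mul_one, mul_assoc, he, sub_self]
    have h4 : (1 - e) * ((u : R) * e) = 0 := by
      rw [← hu, ← mul_assoc, sub_mul, one_mul, he, sub_self, zero_mul]
    have h5 : (1 - e) * (1 - e) = 1 - e := by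
      rw [mul_sub, mul_one, sub_mul, one_mul, he, sub_self, sub_zero]
    rw [add_mul, mul_add, mul_add, h2, h3, h4, h5]
    abel

theorem bend_val {R : Type*} [Ring R] (u : Rˣ) (e : R) (he : e * e = e) (hu : e * u = u * e) :
    (bend u e he hu : R) = u * e + (1 - e) := rfl

theorem bend_inv {R : Type*} [Ring R] (u : Rˣ) (e : R) (he : e * e = e) (hu : e * u = u * e) :
    ((bend u e he hu)⁻¹ : Rˣ).val = (u⁻¹ : Rˣ).val * e + (1 - e) := rfl

theorem bend_comm {R : Type*} [Ring R] (u : Rˣ) (e : R) (he : e * e = e) (hu : e * u = u * e)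
    (y : R) (hy : u * y = y * u) (hey : e * y = y * e) :
    (bend u e he hu : R) * y = y * bend u e he hu := by
  rw [bend_val, add_mul, mul_add, sub_mul, mul_sub, one_mul, mul_one, hey, mul_assoc, hey,
    ← mul_assoc, hy, mul_assoc]

/-- truncation to the unit interval -/
noncomputable def clamp (t : ℝ) : ℝ := max 0 (min t 1)

theorem clamp_cont : Continuous clamp := by
  unfold clamp
  fun_prop

theorem clamp_nonpos {t : ℝ} (h : t ≤ 0) : clamp t = 0 := by
  unfold clamp
  rw [min_eq_left (by linarith), max_eq_left h]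

theorem clamp_one_le {t : ℝ} (h : 1 ≤ t) : clamp t = 1 := by
  unfold clamp
  rw [min_eq_right h, max_eq_right (by norm_num)]

namespace Model

variable {F : Type*} [Field F] {R : Type*} [Ring R] [MetricSpace R] [CompleteSpace R]
  (M : Model F R)

/-- path from `1` to `W n` -/
noncomputable def w (n : ℕ) (t : ℝ) : Rˣ :=
  bend (M.W n) (M.e (2 * (n + 1)) t) (M.e_idem _ _) (M.e_comm_W n t)

theorem w_zero (n : ℕ) : M.w n 0 = 1 := by
  apply Units.ext
  unfold w
  rw [bend_val, e_zero]
  simp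

theorem w_one (n : ℕ) : M.w n 1 = M.W n := by
  apply Units.ext
  unfold w
  rw [bend_val, e_one]
  simp

theorem w_cont (n : ℕ) : Continuous (fun t => (M.w n t : R)) := by
  unfold w
  simp only [bend_val]
  exact M.rm.cadd (M.rm.cmul continuous_const (M.e_cont _)) (M.rm.csub continuous_const (M.e_cont _))

theorem w_inv_cont (n : ℕ) : Continuous (fun t => ((M.w n t)⁻¹ : Rˣ).val) := by
  unfold w
  simp only [bend_inv]
  exact M.rm.cadd (M.rm.cmul continuous_const (M.e_cont _)) (M.rm.csub continuous_const (M.e_cont _))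

theorem w_comm {m n : ℕ} (h : m ≤ n) (x : B F m) (t : ℝ) :
    (M.w n t : R) * M.rho0 m x = M.rho0 m x * M.w n t :=
  bend_comm _ _ _ _ _ (M.W_comm h x) (M.e_comm_rho0' h x t)

/-- the path of units, first `n` steps -/
noncomputable def v : ℕ → ℝ → Rˣ
  | 0, _ => M.P 0
  | n + 1, s => M.w n (clamp (s - n)) * v n s

theorem v_succ (n : ℕ) (s : ℝ) : M.v (n + 1) s = M.w n (clamp (s - n)) * M.v n s := rfl

theorem v_stable {a b : ℕ} (h : a ≤ b) {s : ℝ} (hs : s ≤ a) : M.v b s = M.v a s := by
  induction b, h using Nat.le_induction with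
  | base => rfl
  | succ b h ih =>
    have hab : (a : ℝ) ≤ b := by exact_mod_cast h
    rw [v_succ, clamp_nonpos (by linarith), w_zero, one_mul, ih]

theorem v_eq_P (n : ℕ) {s : ℝ} (hs : (n : ℝ) ≤ s) : M.v n s = M.P n := by
  induction n with
  | zero => rfl
  | succ n ih =>
    have h1 : (n : ℝ) + 1 ≤ s := by exact_mod_cast hs
    rw [v_succ, clamp_one_le (by linarith), w_one, ih (by linarith), W, inv_mul_cancel_right]

theorem v_cont (n : ℕ) : Continuous (fun s => (M.v n s : R)) := by
  induction n with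
  | zero => exact continuous_const
  | succ n ih =>
    simp only [v_succ, Units.val_mul]
    exact M.rm.cmul ((M.w_cont n).comp (clamp_cont.comp (continuous_id.sub continuous_const))) ih

theorem v_inv_cont (n : ℕ) : Continuous (fun s => ((M.v n s)⁻¹ : Rˣ).val) := by
  induction n with
  | zero => exact continuous_const
  | succ n ih =>
    simp only [v_succ, _root_.mul_inv_rev, Units.val_mul]
    exact M.rm.cmul ih ((M.w_inv_cont n).comp (clamp_cont.comp (continuous_id.sub continuous_const)))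

theorem v_conj {m N : ℕ} (h : m ≤ N) (x : B F m) {s : ℝ} (hs : (m : ℝ) ≤ s) :
    (M.v N s : R) * M.ι m x * ((M.v N s)⁻¹ : Rˣ).val = M.rho0 m x := by
  induction N, h using Nat.le_induction with
  | base =>
    rw [M.v_eq_P m hs]
    exact M.P_conj le_rfl x
  | succ N h ih =>
    rw [v_succ, _root_.mul_inv_rev, Units.val_mul, Units.val_mul]
    have : (M.w N (clamp (s - N)) : R) * (M.v N s : R) * M.ι m x *
        (((M.v N s)⁻¹ : Rˣ).val * ((M.w N (clamp (s - N)))⁻¹ : Rˣ).val) =
        (M.w N (clamp (s - N)) : R) * ((M.v N s : R) * M.ι m x * ((M.v N s)⁻¹ : Rˣ).val) *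
        ((M.w N (clamp (s - N)))⁻¹ : Rˣ).val := by
      simp only [mul_assoc]
    rw [this, ih, M.w_comm h, mul_assoc, Units.mul_inv, mul_one]

/-- the path of units -/
noncomputable def vv (s : ℝ) : Rˣ := M.v ⌈s⌉₊ s

theorem vv_eq {s : ℝ} {n : ℕ} (h : s ≤ n) : M.vv s = M.v n s :=
  (M.v_stable (Nat.ceil_le.mpr h) (Nat.le_ceil s)).symm

theorem vv_zero : M.vv 0 = 1 := by
  rw [M.vv_eq (n := 0) (by simp)]
  exact M.P_zero

theorem vv_cont : Continuous (fun s => (M.vv s : R)) := by
  rw [continuous_iff_continuousAt]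
  intro s
  obtain ⟨n, hn⟩ := exists_nat_gt s
  refine (M.v_cont n).continuousAt.congr ?_
  filter_upwards [Iio_mem_nhds hn] with t ht
  rw [M.vv_eq (le_of_lt ht)]

theorem vv_inv_cont : Continuous (fun s => ((M.vv s)⁻¹ : Rˣ).val) := by
  rw [continuous_iff_continuousAt]
  intro s
  obtain ⟨n, hn⟩ := exists_nat_gt s
  refine (M.v_inv_cont n).continuousAt.congr ?_
  filter_upwards [Iio_mem_nhds hn] with t ht
  rw [M.vv_eq (le_of_lt ht)]

/-- conjugation by the path -/
noncomputable def A (s : ℝ) (x : R) : R := (M.vv s : R) * x * ((M.vv s)⁻¹ : Rˣ).val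

theorem A_dist_le (s : ℝ) (x y : R) : dist (M.A s x) (M.A s y) ≤ dist x y :=
  M.rm.dist_conj_le _ _ _ _

theorem A_mul (s : ℝ) (x y : R) : M.A s (x * y) = M.A s x * M.A s y := by
  unfold A
  have : (M.vv s : R) * x * ((M.vv s)⁻¹ : Rˣ).val * ((M.vv s : R) * y * ((M.vv s)⁻¹ : Rˣ).val) =
      (M.vv s : R) * x * ((((M.vv s)⁻¹ : Rˣ).val * (M.vv s : R)) * (y * ((M.vv s)⁻¹ : Rˣ).val)) := by
    simp only [mul_assoc]
  rw [this, Units.inv_mul, one_mul]
  simp only [mul_assoc]

theorem A_one (s : ℝ) : M.A s 1 = 1 := by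
  unfold A
  rw [mul_one, Units.mul_inv]

theorem A_zero (x : R) : M.A 0 x = x := by
  unfold A
  rw [vv_zero]
  simp

theorem A_cont : Continuous (fun p : ℝ × R => M.A p.1 p.2) := by
  unfold A
  exact M.rm.cmul (M.rm.cmul (M.vv_cont.comp continuous_fst) continuous_snd)
    (M.vv_inv_cont.comp continuous_fst)

theorem A_ι {m : ℕ} (x : B F m) {s : ℝ} (hs : (m : ℝ) ≤ s) : M.A s (M.ι m x) = M.rho0 m x := by
  unfold A vv
  apply M.v_conj _ x hs
  exact_mod_cast hs.trans (Nat.le_ceil s)

omit [CompleteSpace R] in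
theorem exists_near (x : R) {ε : ℝ} (hε : 0 < ε) : ∃ m, ∃ y : B F m, dist x (M.ι m y) < ε := by
  obtain ⟨z, hz, hxz⟩ := Metric.mem_closure_iff.mp (M.dense x) ε hε
  rw [Set.mem_iUnion] at hz
  obtain ⟨m, y, rfl⟩ := hz
  exact ⟨m, y, hxz⟩

theorem exists_lim (x : R) : ∃ y, Tendsto (fun s => M.A s x) atTop (𝓝 y) := by
  rw [← cauchy_map_iff_exists_tendsto]
  rw [Metric.cauchy_iff]
  refine ⟨inferInstance, fun ε hε => ?_⟩
  obtain ⟨m, y, hy⟩ := M.exists_near x (show 0 < ε / 2 by linarith)
  refine ⟨(fun s => M.A s x) '' Set.Ici (m : ℝ), ?_, ?_⟩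
  · exact image_mem_map (Ici_mem_atTop _)
  · rintro _ ⟨s, hs, rfl⟩ _ ⟨t, ht, rfl⟩
    calc dist (M.A s x) (M.A t x) ≤ dist (M.A s x) (M.A s (M.ι m y)) +
          dist (M.A s (M.ι m y)) (M.A t x) := dist_triangle _ _ _
      _ = dist (M.A s x) (M.A s (M.ι m y)) + dist (M.A t (M.ι m y)) (M.A t x) := by
          rw [M.A_ι y hs, M.A_ι y ht]
      _ ≤ dist x (M.ι m y) + dist (M.ι m y) x := add_le_add (M.A_dist_le _ _ _) (M.A_dist_le _ _ _)
      _ < ε := by rw [dist_comm (M.ι m y) x]; linarith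

/-- the limit endomorphism -/
noncomputable def rho (x : R) : R := (M.exists_lim x).choose

theorem rho_tendsto (x : R) : Tendsto (fun s => M.A s x) atTop (𝓝 (M.rho x)) :=
  (M.exists_lim x).choose_spec

theorem rho_ι {m : ℕ} (x : B F m) : M.rho (M.ι m x) = M.rho0 m x := by
  refine tendsto_nhds_unique (M.rho_tendsto (M.ι m x)) ?_
  refine (tendsto_const_nhds (x := M.rho0 m x)).congr' ?_
  filter_upwards [Ici_mem_atTop (m : ℝ)] with s hs
  exact (M.A_ι x hs).symm

theorem rho_dist_le (x y : R) : dist (M.rho x) (M.rho y) ≤ dist x y :=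
  le_of_tendsto ((M.rho_tendsto x).dist (M.rho_tendsto y))
    (Eventually.of_forall fun s => M.A_dist_le s x y)

theorem rho_cont : Continuous M.rho := by
  have : LipschitzWith 1 M.rho := by
    refine LipschitzWith.of_dist_le_mul fun x y => ?_
    simpa using M.rho_dist_le x y
  exact this.continuous

theorem rho_mul (x y : R) : M.rho (x * y) = M.rho x * M.rho y := by
  refine tendsto_nhds_unique (M.rho_tendsto (x * y)) ?_
  refine (M.rm.tmul (M.rho_tendsto x) (M.rho_tendsto y)).congr fun s => ?_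
  exact (M.A_mul s x y).symm

theorem rho_one : M.rho 1 = 1 := by
  refine tendsto_nhds_unique (M.rho_tendsto 1) ?_
  refine tendsto_const_nhds.congr fun s => ?_
  exact (M.A_one s).symm

theorem rho_isUnit {x : R} (hx : IsUnit x) : IsUnit (M.rho x) := by
  obtain ⟨u, rfl⟩ := hx
  exact ⟨⟨M.rho u, M.rho (u⁻¹ : Rˣ).val, by rw [← rho_mul, Units.mul_inv, rho_one],
    by rw [← rho_mul, Units.inv_mul, rho_one]⟩, rfl⟩

theorem e_comm_rho (x : R) (t : ℝ) : M.e 0 t * M.rho x = M.rho x * M.e 0 t := by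
  have hcl : IsClosed {x : R | M.e 0 t * M.rho x = M.rho x * M.e 0 t} :=
    isClosed_eq (M.rm.cmul continuous_const M.rho_cont) (M.rm.cmul M.rho_cont continuous_const)
  have hsub : (⋃ n, Set.range (M.ι n)) ⊆ {x : R | M.e 0 t * M.rho x = M.rho x * M.e 0 t} := by
    intro z hz
    rw [Set.mem_iUnion] at hz
    obtain ⟨m, y, rfl⟩ := hz
    change M.e 0 t * M.rho (M.ι m y) = M.rho (M.ι m y) * M.e 0 t
    rw [rho_ι]
    exact M.e_comm_rho0 m y t
  have : closure (⋃ n, Set.range (M.ι n)) ⊆ {x : R | M.e 0 t * M.rho x = M.rho x * M.e 0 t} :=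
    hcl.closure_subset_iff.mpr hsub
  exact this (M.dense x)

open Classical in
/-- the first homotopy -/
noncomputable def Phi (p : ℝ × R) : R := if p.1 ≤ 0 then M.rho p.2 else M.A (p.1⁻¹ - 1) p.2

theorem Phi_cont : Continuous M.Phi := by
  rw [continuous_iff_continuousAt]
  rintro ⟨r, x⟩
  rcases lt_trichotomy r 0 with hr | rfl | hr
  · have h1 : ContinuousAt (fun p : ℝ × R => M.rho p.2) (r, x) :=
      (M.rho_cont.comp continuous_snd).continuousAt
    refine h1.congr ?_
    have : {p : ℝ × R | p.1 < 0} ∈ 𝓝 (r, x) :=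
      (isOpen_lt continuous_fst continuous_const).mem_nhds hr
    filter_upwards [this] with p hp
    unfold Phi
    rw [if_pos (le_of_lt hp)]
  · rw [Metric.continuousAt_iff]
    intro ε hε
    obtain ⟨S, hS⟩ := Metric.tendsto_atTop.mp (M.rho_tendsto x) (ε / 2) (by linarith)
    have hSpos : 0 < |S| + 2 := by positivity
    refine ⟨min (1 / (|S| + 2)) (ε / 2), lt_min (by positivity) (by linarith), ?_⟩
    rintro ⟨r', x'⟩ hd
    rw [Prod.dist_eq, max_lt_iff] at hd
    obtain ⟨hd1, hd2⟩ := hd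
    have hd1' := hd1.trans_le (min_le_left _ _)
    have hd2' := hd2.trans_le (min_le_right _ _)
    simp only [Real.dist_eq, sub_zero] at hd1' hd2'
    have hP0 : M.Phi (0, x) = M.rho x := by
      unfold Phi
      rw [if_pos (le_refl _)]
    rw [hP0]
    by_cases hr' : r' ≤ 0
    · have : M.Phi (r', x') = M.rho x' := by
        unfold Phi
        rw [if_pos hr']
      rw [this]
      exact (M.rho_dist_le x' x).trans_lt (by linarith)
    · have : M.Phi (r', x') = M.A (r'⁻¹ - 1) x' := by
        unfold Phi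
        rw [if_neg hr']
      rw [this]
      push Not at hr'
      rw [abs_of_pos hr'] at hd1'
      have h2 : |S| + 2 < r'⁻¹ := by
        rw [lt_inv_comm₀ hSpos hr', ← one_div]
        exact hd1'
      have h3 : S ≤ r'⁻¹ - 1 := by
        have := le_abs_self S
        linarith
      calc dist (M.A (r'⁻¹ - 1) x') (M.rho x) ≤ dist (M.A (r'⁻¹ - 1) x') (M.A (r'⁻¹ - 1) x) +
            dist (M.A (r'⁻¹ - 1) x) (M.rho x) := dist_triangle _ _ _
        _ ≤ dist x' x + dist (M.A (r'⁻¹ - 1) x) (M.rho x) := by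
            gcongr
            exact M.A_dist_le _ _ _
        _ < ε := by
            have := hS _ h3
            linarith
  · have h1 : ContinuousAt (fun p : ℝ × R => M.A (p.1⁻¹ - 1) p.2) (r, x) := by
      have h2 : ContinuousAt (fun p : ℝ × R => (p.1⁻¹ - 1, p.2)) (r, x) := by
        refine ContinuousAt.prodMk ?_ continuousAt_snd
        exact (continuousAt_fst.inv₀ hr.ne').sub continuousAt_const
      exact ContinuousAt.comp (f := fun p : ℝ × R => (p.1⁻¹ - 1, p.2))
        (g := fun p : ℝ × R => M.A p.1 p.2) M.A_cont.continuousAt h2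
    refine h1.congr ?_
    have : {p : ℝ × R | 0 < p.1} ∈ 𝓝 (r, x) :=
      (isOpen_lt continuous_const continuous_fst).mem_nhds hr
    filter_upwards [this] with p hp
    unfold Phi
    rw [if_neg (not_le.mpr hp)]

theorem Phi_isUnit (r : ℝ) {x : R} (hx : IsUnit x) : IsUnit (M.Phi (r, x)) := by
  unfold Phi
  split_ifs
  · exact M.rho_isUnit hx
  · exact ((M.vv _).isUnit.mul hx).mul (M.vv _)⁻¹.isUnit

/-- the endomorphism on units -/
noncomputable def rhoU : C({x : R // IsUnit x}, {x : R // IsUnit x}) where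
  toFun x := ⟨M.rho x.1, M.rho_isUnit x.2⟩
  continuous_toFun := (M.rho_cont.comp continuous_subtype_val).subtype_mk _

/-- `rhoU` is homotopic to the identity -/
noncomputable def homotopy1 : ContinuousMap.Homotopy M.rhoU (ContinuousMap.id {x : R // IsUnit x}) where
  toFun p := ⟨M.Phi (p.1, p.2.1), M.Phi_isUnit _ p.2.2⟩
  continuous_toFun := by
    refine Continuous.subtype_mk ?_ _
    exact M.Phi_cont.comp ((continuous_subtype_val.comp continuous_fst).prodMk
      (continuous_subtype_val.comp continuous_snd))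
  map_zero_left x := by
    apply Subtype.ext
    change M.Phi (((0 : unitInterval) : ℝ), x.1) = M.rho x.1
    unfold Phi
    rw [if_pos (by simp)]
  map_one_left x := by
    apply Subtype.ext
    change M.Phi (((1 : unitInterval) : ℝ), x.1) = x.1
    unfold Phi
    rw [if_neg (by simp)]
    simp [A_zero]

theorem isUnit_bend {x : R} (hx : IsUnit x) (t : ℝ) :
    IsUnit (M.rho x * M.e 0 t + (1 - M.e 0 t)) := by
  obtain ⟨u, hu⟩ := M.rho_isUnit hx
  rw [← hu]
  exact (bend u (M.e 0 t) (M.e_idem 0 t) (by rw [hu]; exact M.e_comm_rho x t)).isUnit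

/-- `rhoU` is homotopic to a constant -/
noncomputable def homotopy2 : ContinuousMap.Homotopy
    (ContinuousMap.const {x : R // IsUnit x} (⟨1, isUnit_one⟩ : {x : R // IsUnit x})) M.rhoU where
  toFun p := ⟨M.rho p.2.1 * M.e 0 p.1 + (1 - M.e 0 p.1), M.isUnit_bend p.2.2 _⟩
  continuous_toFun := by
    refine Continuous.subtype_mk ?_ _
    have h1 : Continuous (fun p : unitInterval × {x : R // IsUnit x} => M.e 0 (p.1 : ℝ)) :=
      (M.e_cont 0).comp (continuous_subtype_val.comp continuous_fst)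
    have h2 : Continuous (fun p : unitInterval × {x : R // IsUnit x} => M.rho p.2.1) :=
      M.rho_cont.comp (continuous_subtype_val.comp continuous_snd)
    exact M.rm.cadd (M.rm.cmul h2 h1) (M.rm.csub continuous_const h1)
  map_zero_left x := by
    apply Subtype.ext
    change M.rho x.1 * M.e 0 ((0 : unitInterval) : ℝ) + (1 - M.e 0 ((0 : unitInterval) : ℝ)) = 1
    simp [e_zero]
  map_one_left x := by
    apply Subtype.ext
    change M.rho x.1 * M.e 0 ((1 : unitInterval) : ℝ) + (1 - M.e 0 ((1 : unitInterval) : ℝ)) =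
      M.rho x.1
    simp [e_one]

include M in
theorem contractible : ContractibleSpace {x : R // IsUnit x} := by
  rw [contractible_iff_id_nullhomotopic]
  refine ⟨⟨1, isUnit_one⟩, ?_⟩
  exact (ContinuousMap.Homotopic.symm ⟨M.homotopy1⟩).trans (ContinuousMap.Homotopic.symm ⟨M.homotopy2⟩)

end Model

end Pool.Agent.H35
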