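import Mathlib

namespace Pool.Agent.H35

open Filter Topology Matrix

section Bits

variable {F : Type*} [Field F]

/-- matrices indexed by words of length `n` in two letters: a copy of `M_{2^n}(F)` -/
abbrev B (F : Type*) (n : ℕ) := Matrix (Fin n → Bool) (Fin n → Bool) F

open Classical in
/-- `T σ x` : act by `x` in the coordinates `σ 0, σ 1, …`, trivially in the others. -/
noncomputable def T {m N : ℕ} (σ : Fin m → Fin N) (x : B F m) : B F N :=
  fun i j => if ∀ c, c ∉ Set.range σ → i c = j c then x (i ∘ σ) (j ∘ σ) else 0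

open Classical in
theorem T_apply {m N : ℕ} (σ : Fin m → Fin N) (x : B F m) (i j) :
    T σ x i j = if ∀ c, c ∉ Set.range σ → i c = j c then x (i ∘ σ) (j ∘ σ) else 0 := rfl

theorem T_comp {l m N : ℕ} (σ : Fin m → Fin N) (hσ : Function.Injective σ) (τ : Fin l → Fin m)
    (x : B F l) : T σ (T τ x) = T (σ ∘ τ) x := by
  classical
  ext i j
  rw [T_apply, T_apply, T_apply]
  have key : (∀ c, c ∉ Set.range (σ ∘ τ) → i c = j c) ↔
      (∀ c, c ∉ Set.range σ → i c = j c) ∧
        (∀ c, c ∉ Set.range τ → (i ∘ σ) c = (j ∘ σ) c) := by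
    constructor
    · intro h
      refine ⟨fun c hc => h c ?_, fun c hc => h (σ c) ?_⟩
      · rintro ⟨d, rfl⟩; exact hc ⟨τ d, rfl⟩
      · rintro ⟨d, hd⟩; exact hc ⟨d, hσ hd⟩
    · rintro ⟨h1, h2⟩ c hc
      by_cases hcσ : c ∈ Set.range σ
      · obtain ⟨d, rfl⟩ := hcσ
        exact h2 d (by rintro ⟨e, rfl⟩; exact hc ⟨e, rfl⟩)
      · exact h1 c hcσ
  by_cases h1 : ∀ c, c ∉ Set.range σ → i c = j c
  · by_cases h2 : ∀ c, c ∉ Set.range τ → (i ∘ σ) c = (j ∘ σ) c
    · rw [if_pos h1, if_pos h2, if_pos (key.mpr ⟨h1, h2⟩)]; rfl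
    · rw [if_pos h1, if_neg h2, if_neg (fun h => h2 (key.mp h).2)]
  · rw [if_neg h1, if_neg (fun h => h1 (key.mp h).1)]

theorem T_id {m : ℕ} (x : B F m) : T id x = x := by
  classical
  ext i j
  rw [T_apply, if_pos]
  · rfl
  · intro c hc; exact absurd ⟨c, rfl⟩ hc

/-- action of a permutation of the coordinates on words -/
def wordPerm {N : ℕ} (π : Equiv.Perm (Fin N)) : Equiv.Perm (Fin N → Bool) where
  toFun i := i ∘ π
  invFun i := i ∘ π.symm
  left_inv i := by ext c; simp
  right_inv i := by ext c; simp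

/-- the permutation matrix attached to a permutation of the coordinates -/
def U {N : ℕ} (π : Equiv.Perm (Fin N)) : (B F N)ˣ where
  val := (wordPerm π).toPEquiv.toMatrix
  inv := (wordPerm π).symm.toPEquiv.toMatrix
  val_inv := by
    rw [PEquiv.toMatrix_toPEquiv_mul]
    ext i j
    simp [PEquiv.toMatrix_apply, Matrix.one_apply, Equiv.toPEquiv_apply]
  inv_val := by
    rw [PEquiv.toMatrix_toPEquiv_mul]
    ext i j
    simp [PEquiv.toMatrix_apply, Matrix.one_apply, Equiv.toPEquiv_apply]

theorem U_conj {N : ℕ} (π : Equiv.Perm (Fin N)) (x : B F N) :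
    (U π : (B F N)ˣ).val * x * (U π : (B F N)ˣ)⁻¹.val = x.submatrix (· ∘ π) (· ∘ π) := by
  change (wordPerm π).toPEquiv.toMatrix * x * (wordPerm π).symm.toPEquiv.toMatrix = _
  rw [PEquiv.toMatrix_toPEquiv_mul, PEquiv.mul_toMatrix_toPEquiv]
  rfl

theorem submatrix_T {m N : ℕ} (π : Equiv.Perm (Fin N)) (σ : Fin m → Fin N) (x : B F m) :
    (T σ x).submatrix (· ∘ π) (· ∘ π) = T (π ∘ σ) x := by
  classical
  ext i j
  rw [Matrix.submatrix_apply, T_apply, T_apply]
  have key : (∀ c, c ∉ Set.range σ → (i ∘ π) c = (j ∘ π) c) ↔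
      (∀ c, c ∉ Set.range (π ∘ σ) → i c = j c) := by
    constructor
    · intro h c hc
      have := h (π.symm c) (by
        rintro ⟨d, hd⟩
        exact hc ⟨d, by simp [hd]⟩)
      simpa using this
    · intro h c hc
      exact h (π c) (by
        rintro ⟨d, hd⟩
        exact hc ⟨d, π.injective hd⟩)
  by_cases h : ∀ c, c ∉ Set.range σ → (i ∘ π) c = (j ∘ π) c
  · rw [if_pos h, if_pos (key.mp h)]; rfl
  · rw [if_neg h, if_neg (fun h' => h (key.mpr h'))]

theorem U_conj_T {m N : ℕ} (π : Equiv.Perm (Fin N)) (σ : Fin m → Fin N) (x : B F m) :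
    (U π : (B F N)ˣ).val * T σ x * (U π : (B F N)ˣ)⁻¹.val = T (π ∘ σ) x := by
  rw [U_conj, submatrix_T]

open Classical in
/-- diagonal 0/1 matrix of a predicate -/
noncomputable def D {N : ℕ} (φ : (Fin N → Bool) → Prop) : B F N :=
  Matrix.diagonal (fun i => if φ i then 1 else 0)

theorem D_congr {N : ℕ} {φ ψ : (Fin N → Bool) → Prop} (h : ∀ i, φ i ↔ ψ i) :
    (D φ : B F N) = D ψ := by
  have : φ = ψ := funext fun i => propext (h i)
  rw [this]

theorem D_true {N : ℕ} {φ : (Fin N → Bool) → Prop} (h : ∀ i, φ i) : (D φ : B F N) = 1 := by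
  unfold D
  simp [h]

theorem D_false {N : ℕ} {φ : (Fin N → Bool) → Prop} (h : ∀ i, ¬ φ i) : (D φ : B F N) = 0 := by
  unfold D
  simp [h]

theorem D_mul_self {N : ℕ} (φ : (Fin N → Bool) → Prop) : (D φ : B F N) * D φ = D φ := by
  unfold D
  rw [Matrix.diagonal_mul_diagonal]
  congr 1
  ext i
  split_ifs <;> simp

theorem T_D {m N : ℕ} (σ : Fin m → Fin N) (φ : (Fin m → Bool) → Prop) :
    T σ (D φ : B F m) = D (fun i => φ (i ∘ σ)) := by
  classical
  ext i j
  rw [T_apply]
  unfold D
  by_cases hij : i = j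
  · subst hij
    rw [if_pos (fun _ _ => rfl), Matrix.diagonal_apply_eq, Matrix.diagonal_apply_eq]
  · rw [Matrix.diagonal_apply_ne _ hij]
    split_ifs with h
    · apply Matrix.diagonal_apply_ne
      intro h2
      apply hij
      ext c
      by_cases hc : c ∈ Set.range σ
      · obtain ⟨d, rfl⟩ := hc
        exact congrFun h2 d
      · exact h c hc
    · rfl

theorem D_comm_T {m N : ℕ} (σ : Fin m → Fin N) (x : B F m) (φ : (Fin N → Bool) → Prop)
    (hφ : ∀ i j : Fin N → Bool, (∀ c, c ∉ Set.range σ → i c = j c) → (φ i ↔ φ j)) :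
    D φ * T σ x = T σ x * D φ := by
  classical
  ext i j
  unfold D
  rw [Matrix.diagonal_mul, Matrix.mul_diagonal, T_apply]
  by_cases h : ∀ c, c ∉ Set.range σ → i c = j c
  · have := hφ i j h
    by_cases hi : φ i
    · simp [hi, this.mp hi]
    · simp [hi, (not_congr this).mp hi]
  · rw [if_neg h, mul_zero, zero_mul]

/-- value of a word read as a binary number, first letter most significant -/
def bval : (n : ℕ) → (Fin n → Bool) → ℕ
  | 0, _ => 0
  | n + 1, w => 2 * bval n (fun j => w j.castSucc) + (w (Fin.last n)).toNat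

theorem bval_injective : ∀ n, Function.Injective (bval n)
  | 0 => fun w w' _ => by ext j; exact j.elim0
  | n + 1 => fun w w' h => by
    unfold bval at h
    have h1 : (w (Fin.last n)).toNat ≤ 1 := Bool.toNat_le _
    have h2 : (w' (Fin.last n)).toNat ≤ 1 := Bool.toNat_le _
    have h3 : bval n (fun j => w j.castSucc) = bval n (fun j => w' j.castSucc) := by omega
    have h4 : (w (Fin.last n)).toNat = (w' (Fin.last n)).toNat := by omega
    have h5 := bval_injective n h3
    have h6 : w (Fin.last n) = w' (Fin.last n) := by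
      cases hw : w (Fin.last n) <;> cases hw' : w' (Fin.last n) <;> simp [hw, hw'] at h4 ⊢
    ext j
    refine Fin.lastCases ?_ (fun j => ?_) j
    · rw [h6]
    · exact congrArg (· = true) (congrFun h5 j) |> fun h => by simpa using h

theorem bval_lt : ∀ n (w : Fin n → Bool), bval n w < 2 ^ n
  | 0, _ => by simp [bval]
  | n + 1, w => by
    unfold bval
    have h1 : (w (Fin.last n)).toNat ≤ 1 := Bool.toNat_le _
    have h2 := bval_lt n (fun j => w j.castSucc)
    rw [pow_succ]
    omega

theorem card_bval_eq_le {n N : ℕ} (β : Fin n → Fin N) (hβ : Function.Injective β) (k : ℕ) :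
    Nat.card {i : Fin N → Bool // bval n (i ∘ β) = k} * 2 ^ n ≤ 2 ^ N := by
  classical
  have h1 : Nat.card {i : Fin N → Bool // bval n (i ∘ β) = k} ≤
      Nat.card ({c : Fin N // c ∉ Set.range β} → Bool) := by
    apply Nat.card_le_card_of_injective
      (fun (i : {i : Fin N → Bool // bval n (i ∘ β) = k}) (c : {c : Fin N // c ∉ Set.range β}) =>
        i.1 c.1)
    rintro ⟨i, hi⟩ ⟨j, hj⟩ hij
    apply Subtype.ext
    change i = j
    have hb : i ∘ β = j ∘ β := bval_injective n (hi.trans hj.symm)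
    funext c
    by_cases hc : c ∈ Set.range β
    · obtain ⟨d, rfl⟩ := hc
      exact congrFun hb d
    · exact congrFun hij ⟨c, hc⟩
  have h2 : Nat.card ({c : Fin N // c ∉ Set.range β} → Bool) * 2 ^ n = 2 ^ N := by
    rw [Nat.card_fun, Nat.card_eq_fintype_card, Nat.card_eq_fintype_card, Fintype.card_bool,
      ← pow_add]
    congr 1
    have e1 : Fintype.card {c : Fin N // c ∈ Set.range β} = n := by
      have := Fintype.card_congr (Equiv.ofInjective β hβ)
      rw [Fintype.card_fin] at this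
      exact this.symm
    have e2 := Fintype.card_subtype_compl (fun c : Fin N => c ∈ Set.range β)
    have e3 := Fintype.card_subtype_le (fun c : Fin N => c ∈ Set.range β)
    rw [e1] at e2 e3
    rw [Fintype.card_fin] at e2 e3
    have e4 : Fintype.card {c : Fin N // c ∉ Set.range β} = N - n := by
      rw [← e2]
    omega
  calc _ ≤ _ := Nat.mul_le_mul_right _ h1
    _ = _ := h2

theorem rank_D_sub_le {n N : ℕ} (β : Fin n → Fin N) (hβ : Function.Injective β) (k : ℕ) :
    ((D (fun i => bval n (i ∘ β) < k) - D (fun i => bval n (i ∘ β) < k + 1) : B F N).rank) * 2 ^ n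
      ≤ 2 ^ N := by
  classical
  refine le_trans (Nat.mul_le_mul_right _ ?_) (card_bval_eq_le β hβ k)
  unfold D
  rw [Matrix.diagonal_sub, Matrix.rank_diagonal, ← Nat.card_eq_fintype_card]
  refine Nat.card_mono (Set.toFinite {i : Fin N → Bool | bval n (i ∘ β) = k}) ?_
  intro i h
  by_contra hne
  apply h
  have hne : bval n (i ∘ β) ≠ k := hne
  rcases Nat.lt_or_gt_of_ne hne with h' | h'
  · rw [if_pos h', if_pos (by omega), sub_self]
  · rw [if_neg (by omega), if_neg (by omega), sub_self]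

end Bits

end Pool.Agent.H35
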