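import Mathlib

/-! The metric ring axioms used, and the bit-indexed matrix algebras -/

namespace Pool.Agent.H35

open Filter Topology Matrix

/-- A ring with a translation invariant metric for which multiplications by elements are
nonexpansive. -/
structure IsRankMetric (R : Type*) [Ring R] [MetricSpace R] : Prop where
  add_right : ∀ x y z : R, dist (x + z) (y + z) = dist x y
  mul_left_le : ∀ a x y : R, dist (a * x) (a * y) ≤ dist x y
  mul_right_le : ∀ a x y : R, dist (x * a) (y * a) ≤ dist x y

namespace IsRankMetric

variable {R : Type*} [Ring R] [MetricSpace R] (h : IsRankMetric R)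
include h

theorem dist_add_le (a b c d : R) : dist (a + b) (c + d) ≤ dist a c + dist b d := by
  calc dist (a + b) (c + d) ≤ dist (a + b) (c + b) + dist (c + b) (c + d) := dist_triangle _ _ _
    _ = dist a c + dist b d := by
      rw [h.add_right, add_comm c b, add_comm c d, h.add_right]

theorem dist_mul_le (a b c d : R) : dist (a * b) (c * d) ≤ dist a c + dist b d := by
  calc dist (a * b) (c * d) ≤ dist (a * b) (c * b) + dist (c * b) (c * d) := dist_triangle _ _ _
    _ ≤ dist a c + dist b d := add_le_add (h.mul_right_le _ _ _) (h.mul_left_le _ _ _)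

theorem dist_neg (a b : R) : dist (-a) (-b) = dist a b := by
  have := h.add_right (-a) (-b) (a + b)
  rw [← this]
  have e1 : -a + (a + b) = b := by abel
  have e2 : -b + (a + b) = a := by abel
  rw [e1, e2, dist_comm]

theorem dist_sub_le (a b c d : R) : dist (a - b) (c - d) ≤ dist a c + dist b d := by
  rw [sub_eq_add_neg, sub_eq_add_neg]
  refine (h.dist_add_le _ _ _ _).trans ?_
  rw [h.dist_neg]

theorem continuous_mul : Continuous (fun p : R × R => p.1 * p.2) := by
  have : LipschitzWith 2 (fun p : R × R => p.1 * p.2) := by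
    refine LipschitzWith.of_dist_le_mul ?_
    rintro ⟨a, b⟩ ⟨c, d⟩
    refine (h.dist_mul_le _ _ _ _).trans ?_
    rw [Prod.dist_eq]
    have h1 := le_max_left (dist a c) (dist b d)
    have h2 := le_max_right (dist a c) (dist b d)
    simp only [NNReal.coe_ofNat]
    linarith
  exact this.continuous

theorem continuous_add : Continuous (fun p : R × R => p.1 + p.2) := by
  have : LipschitzWith 2 (fun p : R × R => p.1 + p.2) := by
    refine LipschitzWith.of_dist_le_mul ?_
    rintro ⟨a, b⟩ ⟨c, d⟩
    refine (h.dist_add_le _ _ _ _).trans ?_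
    rw [Prod.dist_eq]
    have h1 := le_max_left (dist a c) (dist b d)
    have h2 := le_max_right (dist a c) (dist b d)
    simp only [NNReal.coe_ofNat]
    linarith
  exact this.continuous

theorem continuous_sub : Continuous (fun p : R × R => p.1 - p.2) := by
  have : LipschitzWith 2 (fun p : R × R => p.1 - p.2) := by
    refine LipschitzWith.of_dist_le_mul ?_
    rintro ⟨a, b⟩ ⟨c, d⟩
    refine (h.dist_sub_le _ _ _ _).trans ?_
    rw [Prod.dist_eq]
    have h1 := le_max_left (dist a c) (dist b d)
    have h2 := le_max_right (dist a c) (dist b d)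
    simp only [NNReal.coe_ofNat]
    linarith
  exact this.continuous

theorem cmul {Y : Type*} [TopologicalSpace Y] {f g : Y → R} (hf : Continuous f)
    (hg : Continuous g) : Continuous (fun y => f y * g y) :=
  h.continuous_mul.comp (hf.prodMk hg)

theorem cadd {Y : Type*} [TopologicalSpace Y] {f g : Y → R} (hf : Continuous f)
    (hg : Continuous g) : Continuous (fun y => f y + g y) :=
  h.continuous_add.comp (hf.prodMk hg)

theorem csub {Y : Type*} [TopologicalSpace Y] {f g : Y → R} (hf : Continuous f)
    (hg : Continuous g) : Continuous (fun y => f y - g y) :=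
  h.continuous_sub.comp (hf.prodMk hg)

theorem tmul {Y : Type*} {l : Filter Y} {f g : Y → R} {a b : R} (hf : Tendsto f l (𝓝 a))
    (hg : Tendsto g l (𝓝 b)) : Tendsto (fun y => f y * g y) l (𝓝 (a * b)) :=
  (h.continuous_mul.tendsto (a, b)).comp (hf.prodMk_nhds hg)

theorem tadd {Y : Type*} {l : Filter Y} {f g : Y → R} {a b : R} (hf : Tendsto f l (𝓝 a))
    (hg : Tendsto g l (𝓝 b)) : Tendsto (fun y => f y + g y) l (𝓝 (a + b)) :=
  (h.continuous_add.tendsto (a, b)).comp (hf.prodMk_nhds hg)

theorem dist_conj_le (u v x y : R) : dist (u * x * v) (u * y * v) ≤ dist x y :=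
  (h.mul_right_le _ _ _).trans (h.mul_left_le _ _ _)

end IsRankMetric

end Pool.Agent.H35
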