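import Pool.Agent.H35.RankRing.Path
import Pool.Agent.H35.RankRing.Metric
import Pool.Agent.H35.RankRing.Bits

/-! Models of the completed limit of matrix algebras, and the idempotent paths in them -/

namespace Pool.Agent.H35

open Filter Topology Matrix

/-- A ring with rank-like metric containing the chain `M_{2^n}(F)` isometrically and densely. -/
structure Model (F : Type*) [Field F] (R : Type*) [Ring R] [MetricSpace R] where
  rm : IsRankMetric R
  ι : ∀ n, B F n →+* R
  ι_succ : ∀ n (x : B F n), ι (n + 1) (T Fin.castSucc x) = ι n x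
  dist_ι : ∀ n (x y : B F n), dist (ι n x) (ι n y) = ((x - y).rank : ℝ) / 2 ^ n
  dense : Dense (⋃ n, Set.range (ι n))

/-- the odd coordinates after `m` -/
def bet (m n : ℕ) (j : Fin n) : Fin (m + 2 * n) := ⟨m + 2 * j + 1, by omega⟩

theorem bet_injective (m n : ℕ) : Function.Injective (bet m n) := by
  intro a b h
  have := congrArg Fin.val h
  simp only [bet] at this
  apply Fin.ext
  omega

/-- the even coordinates -/
def ev (l : ℕ) (j : Fin l) : Fin (2 * l) := ⟨2 * j, by omega⟩

/-- a permutation of the coordinates moving the first `n` of them to the even ones -/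
def permE (n : ℕ) : Equiv.Perm (Fin (2 * n)) where
  toFun i := if h : i.1 < n then ⟨2 * i.1, by omega⟩ else ⟨2 * (i.1 - n) + 1, by omega⟩
  invFun j := if j.1 % 2 = 0 then ⟨j.1 / 2, by omega⟩ else ⟨n + j.1 / 2, by omega⟩
  left_inv i := by
    apply Fin.ext
    by_cases h : i.1 < n
    · simp [h]
    · simp only [h, dite_false]
      rw [if_neg (by omega)]
      simp only
      omega
  right_inv j := by
    apply Fin.ext
    by_cases h : j.1 % 2 = 0
    · have h' : j.1 / 2 < n := by omega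
      simp only [h, if_true, h', dite_true]
      omega
    · simp only [h, if_false]
      rw [dif_neg (by simp)]
      simp only
      omega

theorem permE_castLE {m n : ℕ} (h : m ≤ n) :
    (permE n ∘ Fin.castLE (by omega : m ≤ 2 * n) : Fin m → Fin (2 * n)) =
      Fin.castLE (by omega : 2 * m ≤ 2 * n) ∘ ev m := by
  funext j
  apply Fin.ext
  simp only [Function.comp_apply, permE, Equiv.coe_fn_mk, Fin.val_castLE, ev]
  rw [dif_pos (by omega)]

namespace Model

variable {F : Type*} [Field F] {R : Type*} [Ring R] [MetricSpace R] (M : Model F R)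

theorem ι_le {m N : ℕ} (h : m ≤ N) (x : B F m) : M.ι N (T (Fin.castLE h) x) = M.ι m x := by
  induction N, h using Nat.le_induction with
  | base =>
    have : (Fin.castLE (le_refl m)) = id := by ext; simp
    rw [this, T_id]
  | succ N h ih =>
    rw [← ih, ← M.ι_succ N, T_comp _ (Fin.castSucc_injective N)]
    congr 1

/-- dyadic diagonal idempotents using the odd coordinates after `m` -/
noncomputable def pd (m n k : ℕ) : R := M.ι (m + 2 * n) (D fun i => bval n (i ∘ bet m n) < k)

theorem pd_eq {m n N : ℕ} (h : m + 2 * n ≤ N) (k : ℕ) :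
    M.pd m n k = M.ι N (D fun i => bval n (i ∘ (Fin.castLE h ∘ bet m n)) < k) := by
  unfold pd
  rw [← M.ι_le h, T_D]
  rfl

theorem pd_idem (m n k : ℕ) : M.pd m n k * M.pd m n k = M.pd m n k := by
  unfold pd
  rw [← map_mul, D_mul_self]

theorem pd_succ (m n k : ℕ) : M.pd m (n + 1) (2 * k) = M.pd m n k := by
  rw [M.pd_eq (show m + 2 * n ≤ m + 2 * (n + 1) by omega)]
  unfold pd
  congr 1
  apply D_congr
  intro i
  rw [bval]
  have h1 : (fun j : Fin n => (i ∘ bet m (n + 1)) j.castSucc) =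
      i ∘ (Fin.castLE (show m + 2 * n ≤ m + 2 * (n + 1) by omega) ∘ bet m n) := by
    funext j
    rfl
  rw [h1]
  have h2 := Bool.toNat_le ((i ∘ bet m (n + 1)) (Fin.last n))
  omega

theorem pd_dist (m n k : ℕ) : dist (M.pd m n k) (M.pd m n (k + 1)) ≤ (1 / 2 : ℝ) ^ n := by
  unfold pd
  rw [M.dist_ι]
  have h := rank_D_sub_le (F := F) (bet m n) (bet_injective m n) k
  have h' : (((D (fun i => bval n (i ∘ bet m n) < k) -
      D (fun i => bval n (i ∘ bet m n) < k + 1) : B F (m + 2 * n)).rank : ℕ) : ℝ) * 2 ^ n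
      ≤ 2 ^ (m + 2 * n) := by exact_mod_cast h
  rw [div_le_iff₀ (by positivity), one_div, inv_pow, ← div_eq_inv_mul, le_div_iff₀ (by positivity)]
  exact h'

theorem pd_zero (m : ℕ) : M.pd m 0 0 = 0 := by
  unfold pd
  rw [D_false (fun i => by simp), map_zero]

theorem pd_one (m : ℕ) : M.pd m 0 1 = 1 := by
  unfold pd
  rw [D_true (fun i => by simp [bval]), map_one]

theorem exists_idem_path [CompleteSpace R] (m : ℕ) : ∃ e : ℝ → R, Continuous e ∧ e 0 = 0 ∧
    e 1 = 1 ∧ (∀ t, e t * e t = e t) ∧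
      ∀ y, (∀ n k, M.pd m n k * y = y * M.pd m n k) → ∀ t, e t * y = y * e t := by
  obtain ⟨e, hc, h0, h1, hl⟩ := exists_path (M.pd m) (M.pd_succ m) (M.pd_dist m)
  refine ⟨e, hc, by rw [h0, pd_zero], by rw [h1, pd_one], fun t => ?_, fun y hy t => ?_⟩
  · refine tendsto_nhds_unique (M.rm.tmul (hl t) (hl t)) ?_
    refine (hl t).congr fun n => ?_
    exact (M.pd_idem m n _).symm
  · refine tendsto_nhds_unique (M.rm.tmul (hl t) (tendsto_const_nhds (x := y))) ?_
    refine (M.rm.tmul (tendsto_const_nhds (x := y)) (hl t)).congr fun n => ?_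
    exact (hy n _).symm

/-- the chosen path -/
noncomputable def e [CompleteSpace R] (m : ℕ) : ℝ → R := (M.exists_idem_path m).choose

variable [CompleteSpace R]

theorem e_cont (m : ℕ) : Continuous (M.e m) := (M.exists_idem_path m).choose_spec.1
theorem e_zero (m : ℕ) : M.e m 0 = 0 := (M.exists_idem_path m).choose_spec.2.1
theorem e_one (m : ℕ) : M.e m 1 = 1 := (M.exists_idem_path m).choose_spec.2.2.1
theorem e_idem (m : ℕ) (t : ℝ) : M.e m t * M.e m t = M.e m t :=
  (M.exists_idem_path m).choose_spec.2.2.2.1 t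
theorem e_comm (m : ℕ) (y : R) (hy : ∀ n k, M.pd m n k * y = y * M.pd m n k) (t : ℝ) :
    M.e m t * y = y * M.e m t :=
  (M.exists_idem_path m).choose_spec.2.2.2.2 y hy t

theorem e_comm_ι (m : ℕ) (x : B F m) (t : ℝ) : M.e m t * M.ι m x = M.ι m x * M.e m t := by
  apply M.e_comm
  intro n k
  unfold pd
  rw [← M.ι_le (show m ≤ m + 2 * n by omega) x, ← map_mul, ← map_mul]
  congr 1
  apply D_comm_T
  intro i j hij
  have : i ∘ bet m n = j ∘ bet m n := by
    funext c
    apply hij
    rintro ⟨d, hd⟩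
    have := congrArg Fin.val hd
    simp only [bet, Fin.val_castLE] at this
    omega
  rw [this]

/-- the endomorphism moving the `i`-th tensor factor to the `2i`-th one, on `M_{2^l}` -/
noncomputable def rho0 (l : ℕ) (x : B F l) : R := M.ι (2 * l) (T (ev l) x)

omit [CompleteSpace R] in
theorem rho0_eq {l N : ℕ} (h : 2 * l ≤ N) (x : B F l) :
    M.rho0 l x = M.ι N (T (Fin.castLE h ∘ ev l) x) := by
  unfold rho0
  rw [← M.ι_le h, T_comp _ (Fin.castLE_injective h)]

theorem e_comm_rho0 (l : ℕ) (x : B F l) (t : ℝ) :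
    M.e 0 t * M.rho0 l x = M.rho0 l x * M.e 0 t := by
  apply M.e_comm
  intro n k
  rw [M.pd_eq (show 0 + 2 * n ≤ 2 * (l + n) by omega), M.rho0_eq (show 2 * l ≤ 2 * (l + n) by omega),
    ← map_mul, ← map_mul]
  congr 1
  apply D_comm_T
  intro i j hij
  have : i ∘ (Fin.castLE (show 0 + 2 * n ≤ 2 * (l + n) by omega) ∘ bet 0 n) =
      j ∘ (Fin.castLE (show 0 + 2 * n ≤ 2 * (l + n) by omega) ∘ bet 0 n) := by
    funext c
    apply hij
    rintro ⟨d, hd⟩
    have := congrArg Fin.val hd
    simp only [bet, ev, Function.comp_apply, Fin.val_castLE] at this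
    omega
  rw [this]

/-- image of the coordinate permutation -/
noncomputable def P (n : ℕ) : Rˣ := Units.map (M.ι (2 * n)).toMonoidHom (U (permE n))

omit [CompleteSpace R] in
theorem P_val (n : ℕ) : (M.P n : R) = M.ι (2 * n) (U (permE n)).val := rfl

omit [CompleteSpace R] in
theorem P_inv (n : ℕ) : ((M.P n)⁻¹ : Rˣ).val = M.ι (2 * n) ((U (permE n))⁻¹ : (B F (2 * n))ˣ).val := rfl

omit [CompleteSpace R] in
theorem P_zero : M.P 0 = 1 := by
  apply Units.ext
  rw [P_val]
  have : (U (permE 0)).val = (1 : B F (2 * 0)) := by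
    ext i j
    have hij : i = j := by
      funext c
      exact absurd c.2 (by omega)
    subst hij
    rw [Matrix.one_apply_eq]
    change (wordPerm (permE 0)).toPEquiv.toMatrix i i = 1
    have : wordPerm (permE 0) = Equiv.refl _ := by
      ext i j
      exact absurd j.2 (by omega)
    rw [this]
    simp
  rw [this, map_one, Units.val_one]

omit [CompleteSpace R] in
theorem P_conj {m n : ℕ} (h : m ≤ n) (x : B F m) :
    (M.P n : R) * M.ι m x * ((M.P n)⁻¹ : Rˣ).val = M.rho0 m x := by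
  rw [P_val, P_inv, ← M.ι_le (show m ≤ 2 * n by omega) x, ← map_mul, ← map_mul, U_conj_T,
    permE_castLE h, ← M.rho0_eq]

/-- consecutive quotients -/
noncomputable def W (n : ℕ) : Rˣ := M.P (n + 1) * (M.P n)⁻¹

omit [CompleteSpace R] in
theorem W_mem (n : ℕ) : ∃ w : B F (2 * (n + 1)), (M.W n : R) = M.ι (2 * (n + 1)) w := by
  refine ⟨(U (permE (n + 1))).val * T (Fin.castLE (show 2 * n ≤ 2 * (n + 1) by omega))
    ((U (permE n))⁻¹ : (B F (2 * n))ˣ).val, ?_⟩
  rw [map_mul, M.ι_le]
  rfl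

omit [CompleteSpace R] in
theorem W_comm {m n : ℕ} (h : m ≤ n) (x : B F m) :
    (M.W n : R) * M.rho0 m x = M.rho0 m x * M.W n := by
  have h1 := M.P_conj h x
  have h2 := M.P_conj (Nat.le_succ_of_le h) x
  have h3 : M.rho0 m x * (M.P n : R) = (M.P n : R) * M.ι m x := by
    rw [← h1, mul_assoc, Units.inv_mul, mul_one]
  have h4 : (M.P (n + 1) : R) * M.ι m x = M.rho0 m x * (M.P (n + 1) : R) := by
    rw [← h2, mul_assoc _ _ (M.P (n + 1) : R), Units.inv_mul, mul_one]
  have h5 : ((M.P n)⁻¹ : Rˣ).val * M.rho0 m x = M.ι m x * ((M.P n)⁻¹ : Rˣ).val := by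
    rw [← h1, ← mul_assoc, ← mul_assoc, Units.inv_mul, one_mul]
  unfold W
  rw [Units.val_mul, mul_assoc, h5, ← mul_assoc, h4, mul_assoc]

/-- the path data needed at step `n` commutes with the image of `rho0` on `M_{2^m}`, `m ≤ n` -/
theorem e_comm_rho0' {m n : ℕ} (h : m ≤ n) (x : B F m) (t : ℝ) :
    M.e (2 * (n + 1)) t * M.rho0 m x = M.rho0 m x * M.e (2 * (n + 1)) t := by
  rw [M.rho0_eq (show 2 * m ≤ 2 * (n + 1) by omega)]
  exact M.e_comm_ι _ _ _

theorem e_comm_W (n : ℕ) (t : ℝ) :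
    M.e (2 * (n + 1)) t * M.W n = M.W n * M.e (2 * (n + 1)) t := by
  obtain ⟨w, hw⟩ := M.W_mem n
  rw [hw]
  exact M.e_comm_ι _ _ _

end Model

end Pool.Agent.H35
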