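import Mathlib

/-! Discrete approximations to a continuous path -/

namespace Pool.Agent.H35

open Filter Topology

variable {X : Type*} [MetricSpace X]

/-- Given dyadic data, the steps at level `n` being at most `2^{-n}`, distances along a level. -/
theorem dist_level_le (g : ℕ → ℕ → X) (h2 : ∀ n k, dist (g n k) (g n (k + 1)) ≤ (1 / 2 : ℝ) ^ n)
    (n a b : ℕ) : dist (g n a) (g n (a + b)) ≤ b * (1 / 2 : ℝ) ^ n := by
  induction b with
  | zero => simp
  | succ b ih =>
    calc dist (g n a) (g n (a + (b + 1))) ≤ dist (g n a) (g n (a + b))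
          + dist (g n (a + b)) (g n (a + (b + 1))) := dist_triangle _ _ _
      _ ≤ b * (1 / 2 : ℝ) ^ n + (1 / 2 : ℝ) ^ n := add_le_add ih (h2 n (a + b))
      _ = ((b + 1 : ℕ) : ℝ) * (1 / 2 : ℝ) ^ n := by push_cast; ring

/-- the approximating step functions -/
noncomputable def stepFun (g : ℕ → ℕ → X) (n : ℕ) (t : ℝ) : X := g n ⌊(2 : ℝ) ^ n * t⌋₊

theorem stepFun_succ (g : ℕ → ℕ → X) (h1 : ∀ n k, g (n + 1) (2 * k) = g n k)
    (h2 : ∀ n k, dist (g n k) (g n (k + 1)) ≤ (1 / 2 : ℝ) ^ n) (n : ℕ) (t : ℝ) :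
    dist (stepFun g n t) (stepFun g (n + 1) t) ≤ (1 / 2 : ℝ) ^ (n + 1) := by
  unfold stepFun
  rcases le_or_gt t 0 with ht | ht
  · have e1 : ⌊(2 : ℝ) ^ n * t⌋₊ = 0 := Nat.floor_of_nonpos (mul_nonpos_of_nonneg_of_nonpos (by positivity) ht)
    have e2 : ⌊(2 : ℝ) ^ (n + 1) * t⌋₊ = 0 :=
      Nat.floor_of_nonpos (mul_nonpos_of_nonneg_of_nonpos (by positivity) ht)
    rw [e1, e2, ← h1 n 0]
    simp
  · set k := ⌊(2 : ℝ) ^ n * t⌋₊ with hk
    set l := ⌊(2 : ℝ) ^ (n + 1) * t⌋₊ with hl
    have hk1 : (k : ℝ) ≤ (2 : ℝ) ^ n * t := Nat.floor_le (by positivity)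
    have hk2 : (2 : ℝ) ^ n * t < k + 1 := Nat.lt_floor_add_one _
    have hl1 : (l : ℝ) ≤ (2 : ℝ) ^ (n + 1) * t := Nat.floor_le (by positivity)
    have hl2 : (2 : ℝ) ^ (n + 1) * t < l + 1 := Nat.lt_floor_add_one _
    have hA : 2 * k ≤ l := by
      have : ((2 * k : ℕ) : ℝ) < l + 1 := by
        push_cast
        calc (2 : ℝ) * k ≤ 2 * ((2 : ℝ) ^ n * t) := by linarith
          _ = (2 : ℝ) ^ (n + 1) * t := by ring
          _ < l + 1 := hl2
      exact_mod_cast Nat.lt_succ_iff.mp (by exact_mod_cast this)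
    have hB : l < 2 * k + 2 := by
      have : (l : ℝ) < 2 * k + 2 := by
        calc (l : ℝ) ≤ (2 : ℝ) ^ (n + 1) * t := hl1
          _ = 2 * ((2 : ℝ) ^ n * t) := by ring
          _ < 2 * (k + 1) := by linarith
          _ = 2 * k + 2 := by ring
      exact_mod_cast this
    rw [← h1 n k]
    have : l = 2 * k ∨ l = 2 * k + 1 := by omega
    rcases this with h | h
    · rw [h]; simp
    · rw [h]; exact h2 _ _

/-- the limit path -/
theorem exists_path [CompleteSpace X] (g : ℕ → ℕ → X) (h1 : ∀ n k, g (n + 1) (2 * k) = g n k)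
    (h2 : ∀ n k, dist (g n k) (g n (k + 1)) ≤ (1 / 2 : ℝ) ^ n) :
    ∃ G : ℝ → X, Continuous G ∧ G 0 = g 0 0 ∧ G 1 = g 0 1 ∧
      ∀ t, Tendsto (fun n => stepFun g n t) atTop (𝓝 (G t)) := by
  have hc : ∀ t, CauchySeq (fun n => stepFun g n t) := by
    intro t
    refine cauchySeq_of_le_geometric (1 / 2 : ℝ) (1 / 2 : ℝ) (by norm_num) ?_
    intro n
    refine (stepFun_succ g h1 h2 n t).trans (le_of_eq ?_)
    rw [pow_succ]; ring
  choose G hG using fun t => cauchySeq_tendsto_of_complete (hc t)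
  have hclose : ∀ n t, dist (stepFun g n t) (G t) ≤ (1 / 2 : ℝ) ^ n := by
    intro n t
    have := dist_le_of_le_geometric_of_tendsto (1 / 2 : ℝ) (1 / 2 : ℝ) (by norm_num)
      (f := fun n => stepFun g n t) (a := G t)
      (fun n => (stepFun_succ g h1 h2 n t).trans (le_of_eq (by rw [pow_succ]; ring))) (hG t) n
    refine this.trans (le_of_eq ?_)
    ring
  refine ⟨G, ?_, ?_, ?_, hG⟩
  · -- Lipschitz
    have key : ∀ s t : ℝ, s ≤ t → dist (G s) (G t) ≤ |t - s| := by
      intro s t hst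
      have bound : ∀ n : ℕ, dist (G s) (G t) ≤ |t - s| + 3 * (1 / 2 : ℝ) ^ n := by
        intro n
        have hfl : ⌊(2 : ℝ) ^ n * s⌋₊ ≤ ⌊(2 : ℝ) ^ n * t⌋₊ :=
          Nat.floor_mono (mul_le_mul_of_nonneg_left hst (by positivity))
        obtain ⟨b, hb⟩ := Nat.exists_eq_add_of_le hfl
        have hd : dist (stepFun g n s) (stepFun g n t) ≤ b * (1 / 2 : ℝ) ^ n := by
          unfold stepFun
          rw [hb]
          exact dist_level_le g h2 n _ b
        have hbb : (b : ℝ) ≤ (2 : ℝ) ^ n * |t - s| + 1 := by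
          have habs : |t - s| = t - s := abs_of_nonneg (by linarith)
          rw [habs]
          rcases le_or_gt t 0 with ht | ht
          · have e1 : ⌊(2 : ℝ) ^ n * t⌋₊ = 0 :=
              Nat.floor_of_nonpos (mul_nonpos_of_nonneg_of_nonpos (by positivity) ht)
            have hb0 : b = 0 := by omega
            rw [hb0]
            have : 0 ≤ (2 : ℝ) ^ n * (t - s) := mul_nonneg (by positivity) (by linarith)
            simp
            linarith
          · have h3 : ((⌊(2 : ℝ) ^ n * t⌋₊ : ℕ) : ℝ) ≤ (2 : ℝ) ^ n * t := Nat.floor_le (by positivity)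
            have h4 : (2 : ℝ) ^ n * s < ((⌊(2 : ℝ) ^ n * s⌋₊ : ℕ) : ℝ) + 1 := Nat.lt_floor_add_one _
            rw [hb] at h3
            push_cast at h3
            nlinarith
        calc dist (G s) (G t) ≤ dist (G s) (stepFun g n s) + dist (stepFun g n s) (stepFun g n t)
              + dist (stepFun g n t) (G t) := dist_triangle4 _ _ _ _
          _ ≤ (1 / 2 : ℝ) ^ n + b * (1 / 2 : ℝ) ^ n + (1 / 2 : ℝ) ^ n := by
              gcongr
              · rw [dist_comm]; exact hclose n s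
              · exact hclose n t
          _ ≤ (1 / 2 : ℝ) ^ n + ((2 : ℝ) ^ n * |t - s| + 1) * (1 / 2 : ℝ) ^ n + (1 / 2 : ℝ) ^ n := by
              gcongr
          _ = ((2 : ℝ) ^ n * (1 / 2 : ℝ) ^ n) * |t - s| + 3 * (1 / 2 : ℝ) ^ n := by ring
          _ = |t - s| + 3 * (1 / 2 : ℝ) ^ n := by
              rw [← mul_pow]; norm_num
      have hlim : Tendsto (fun n : ℕ => |t - s| + 3 * (1 / 2 : ℝ) ^ n) atTop (𝓝 (|t - s| + 3 * 0)) :=
        tendsto_const_nhds.add ((tendsto_pow_atTop_nhds_zero_of_lt_one (by norm_num) (by norm_num)).const_mul 3)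
      simpa using ge_of_tendsto' hlim bound
    have hL : LipschitzWith 1 G := by
      refine LipschitzWith.of_dist_le_mul ?_
      intro s t
      rw [NNReal.coe_one, one_mul, Real.dist_eq]
      rcases le_total s t with h | h
      · rw [abs_sub_comm]; exact key s t h
      · rw [dist_comm]; exact key t s h
    exact hL.continuous
  · have : ∀ n, stepFun g n 0 = g 0 0 := by
      intro n
      unfold stepFun
      simp only [mul_zero, Nat.floor_zero]
      induction n with
      | zero => rfl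
      | succ n ih => rw [← ih]; simpa using h1 n 0
    exact tendsto_nhds_unique (hG 0) (by simp [this])
  · have : ∀ n, stepFun g n 1 = g 0 1 := by
      intro n
      unfold stepFun
      have : ⌊(2 : ℝ) ^ n * 1⌋₊ = 2 ^ n := by
        rw [mul_one]
        exact_mod_cast Nat.floor_natCast (2 ^ n)
      rw [this]
      induction n with
      | zero => simp
      | succ n ih =>
        rw [← ih ?_, ← h1 n (2 ^ n)]
        · congr 1; ring
        · rw [mul_one]; exact_mod_cast Nat.floor_natCast (2 ^ n)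
    exact tendsto_nhds_unique (hG 1) (by simp [this])

end Pool.Agent.H35
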